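import Pool.Agent.Helper9.PP.Defs
import Pool.Agent.Helper9.GR.Defs

/-!
Bundles of partial flags over curves, line bundles on them, and very ampleness.
-/

set_option autoImplicit false

namespace Pool.Agent.Helper9.FL

open FF Module MvPolynomial Pool.Agent.Helper9.FJ Pool.Agent.Helper9.PP Pool.Agent.Helper9.GR

variable {K : Type} [Field K] [Algebra ℂ K] {r l : ℕ}

/-- The first `k` columns of a matrix with `r ≥ k` columns. -/
def fc {R : Type} [Zero R] (k : ℕ) (Ξ : Matrix (Fin r) (Fin r) R) : Matrix (Fin r) (Fin k) R :=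
  Matrix.of fun i c => if h : (c : ℕ) < r then Ξ i ⟨c, h⟩ else 0

/-- Let `X = Fl(k, E)` be the bundle of the flags of quotients of the dimensions `k 0 < k 1 < ...` of
the fibres of `E`, embedded in the fibre product of the projective bundles `P(Λ^(k j) E)` by the
embedding of Plücker. A point of `X` above `P` is given by an invertible matrix `Ξ` with entries in
`ℂ`: the linear functions on the fibre of `E` at `P`, whose values on the rows of `E.B P` are the
first `k j` columns of `Ξ`, define the quotient of dimension `k j`. It is the reduction of the point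
`plF k E P Ξ`, see `plp`. -/
noncomputable def plF (k : Fin l → ℕ) (E : Bundle K r) (P : Place ℂ K)
    (Ξ : Matrix (Fin r) (Fin r) K) : Vr (fun j => Rk (k j) r) → K :=
  fun x => plp E P (fc (k x.1) Ξ) x.2

/-- The sections of the line bundle `O(a) ⊗ π^* O(N)` on `X` have no common zero. (They are the
restrictions of the sections of this line bundle on the fibre product of the `P(Λ^(k j) E)`.) -/
def BaseFreeF (k : Fin l → ℕ) (E : Bundle K r) (a : Fin l → ℕ) (N : Place ℂ K →₀ ℤ) : Prop :=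
  ∀ (P : Place ℂ K) (Ξ : Matrix (Fin r) (Fin r) ℂ), Ξ.det ≠ 0 →
    ∃ s, IsSecM (fun j => wedge (k j) E) a N s ∧ ¬ Ge P (1 - N P) (eval (plF k E P (Ξ.map (algebraMap ℂ K))) s)

/-- The sections separate points. -/
def SepPointsF (k : Fin l → ℕ) (E : Bundle K r) (a : Fin l → ℕ) (N : Place ℂ K →₀ ℤ) : Prop :=
  ∀ (P Q : Place ℂ K) (Ξ Θ : Matrix (Fin r) (Fin r) ℂ), Ξ.det ≠ 0 → Θ.det ≠ 0 →
    (P = Q → ∃ j, ¬ ∃ g : Matrix (Fin (k j)) (Fin (k j)) ℂ, fc (k j) Θ = fc (k j) Ξ * g) →
    ∃ s, IsSecM (fun j => wedge (k j) E) a N s ∧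
      Ge P (1 - N P) (eval (plF k E P (Ξ.map (algebraMap ℂ K))) s) ∧
      ¬ Ge Q (1 - N Q) (eval (plF k E Q (Θ.map (algebraMap ℂ K))) s)

/-- The sections separate the tangent vectors which are not vertical: for a section `s` which
vanishes at `(P, Ξ)`, the derivative in the direction of the tangent vector `(1, H)` at `(P, Ξ)` is
the coefficient of `t` in the value of `t ^ N(P) s` at `Ξ + t H`. -/
def SepTransversalF (k : Fin l → ℕ) (E : Bundle K r) (a : Fin l → ℕ) (N : Place ℂ K →₀ ℤ) :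
    Prop :=
  ∀ (P : Place ℂ K) (t : K) (Ξ H : Matrix (Fin r) (Fin r) ℂ), P.ord t = 1 → Ξ.det ≠ 0 →
    ∃ s, IsSecM (fun j => wedge (k j) E) a N s ∧
      Ge P (1 - N P) (eval (plF k E P (Ξ.map (algebraMap ℂ K))) s) ∧
      ¬ Ge P (2 - N P) (eval (plF k E P (Ξ.map (algebraMap ℂ K) + t • H.map (algebraMap ℂ K))) s)

/-- The sections separate the vertical tangent vectors: for a section `s` which vanishes at
`(P, Ξ)`, the derivative in the direction of the vertical tangent vector `(0, H)`, where for some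
`j` the first `k j` columns of `H` are not of the form `Ξ g`, is the value at `P` of the derivative
of `t ^ N(P) s` at `plF k E P Ξ` in the direction given by the coefficients of `ε` in the minors
of the first `k j` columns of `Ξ + ε H`. -/
def SepVerticalF (k : Fin l → ℕ) (E : Bundle K r) (a : Fin l → ℕ) (N : Place ℂ K →₀ ℤ) : Prop :=
  ∀ (P : Place ℂ K) (Ξ H : Matrix (Fin r) (Fin r) ℂ), Ξ.det ≠ 0 →
    (∃ j, ¬ ∃ g : Matrix (Fin (k j)) (Fin (k j)) ℂ, fc (k j) H = fc (k j) Ξ * g) →
    ∃ s, IsSecM (fun j => wedge (k j) E) a N s ∧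
      Ge P (1 - N P) (eval (plF k E P (Ξ.map (algebraMap ℂ K))) s) ∧
      ¬ Ge P (1 - N P) (∑ x : Vr (fun j => Rk (k j) r),
        pt (wedge (k x.1) E) P (dplu (fc (k x.1) Ξ) (fc (k x.1) H)) x.2 *
          eval (plF k E P (Ξ.map (algebraMap ℂ K))) (pderiv x s))

/-- The line bundle `O(a) ⊗ π^* O(N)` on `X = Fl(k, E)` is very ample: its sections have no common
zero, and they separate points and tangent vectors. -/
def VeryAmpleF (k : Fin l → ℕ) (E : Bundle K r) (a : Fin l → ℕ) (N : Place ℂ K →₀ ℤ) : Prop :=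
  BaseFreeF k E a N ∧ SepPointsF k E a N ∧ SepTransversalF k E a N ∧ SepVerticalF k E a N

/-- The line bundle `O(a) ⊗ π^* O(b)` on `X = Fl(k, E)` is ample. -/
def IsAmpleF (k : Fin l → ℕ) (E : Bundle K r) (a : Fin l → ℕ) (b : Place ℂ K →₀ ℤ) : Prop :=
  ∃ M : ℕ, 0 < M ∧ VeryAmpleF k E (M • a) (M • b)

/-- `k (j + 1)`, with `k l = r`. -/
def nx (k : Fin l → ℕ) (r : ℕ) (j : Fin l) : ℕ := if h : (j : ℕ) + 1 < l then k ⟨j + 1, h⟩ else r

/-- `k (j - 1)`, with `k (-1) = 0`. -/
def pv (k : Fin l → ℕ) (j : Fin l) : ℕ :=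
  if (j : ℕ) = 0 then 0 else k ⟨j - 1, (Nat.sub_le _ _).trans_lt j.2⟩

end Pool.Agent.Helper9.FL
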