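import Pool.Agent.Helper9.PP.Stm
import Pool.Agent.Helper9.FL.Defs

/-!
Project FL (helper9): packages.
-/

set_option autoImplicit false

namespace Pool.Agent.Helper9.FL

open FF Module MvPolynomial Pool.Agent.Helper9.FJ Pool.Agent.Helper9.PP Pool.Agent.Helper9.GR

/-- The Harder-Narasimhan polygon with adapted bases: `G` is the matrix of the generic basis (rows),
`blk` the number of the block, `m` the slopes (increasing with the block), `C P` the adapted basis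
of the stalk at `P` in the coordinates of `G` (block upper triangular), and `F a` the subbundle of the
vectors whose coordinates in the blocks before the block of `a` vanish. -/
structure HNd {K : Type} [Field K] [Algebra ℂ K] [IsFF ℂ K] {r : ℕ} (E : Bundle K r) where
  G : Matrix (Fin r) (Fin r) K
  hG : G.det ≠ 0
  blk : Fin r → ℕ
  hblk : Monotone blk
  m : Fin r → ℝ
  hm : Monotone m
  C : Place ℂ K → Matrix (Fin r) (Fin r) K
  hC : ∀ P, ∃ X U : Matrix (Fin r) (Fin r) K, (∀ i j, Ge P 0 (X i j)) ∧ (∀ i j, Ge P 0 (U i j)) ∧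
    X * U = 1 ∧ E.B P * G⁻¹ = X * C P
  htri : ∀ P a b, C P a b ≠ 0 → blk a ≤ blk b
  F : ∀ a, Bn K {b : Fin r // blk a ≤ blk b}
  hF : ∀ a P, (F a).B P = (C P).submatrix Subtype.val Subtype.val
  hS : ∀ a, SL (F a) (m a)
  hdeg : ∑ a, m a = ddeg E.detDiv

/-- Package HN: existence, by induction on the rank. -/
def S_HN : Prop := ∀ {K : Type} [Field K] [Algebra ℂ K] [IsFF ℂ K] {r : ℕ} (E : Bundle K r), 0 < r →
    ∃ h : HNd E, ∀ μ : ℝ, SL (toBn E) μ → ∀ a, μ ≤ h.m a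

/-- Package MIX: the slope inequality for tensors. -/
def S_MIX : Prop := ∀ {K : Type} [Field K] [Algebra ℂ K] [IsFF ℂ K] {q : ℕ} {ι : Fin q → Type}
    [∀ i, Fintype (ι i)] [∀ i, DecidableEq (ι i)] (F : ∀ i, Bn K (ι i)) (μ : Fin q → ℝ),
    (∀ i, Nonempty (ι i)) → (∀ i, SL (F i) (μ i)) → ∀ (N : ℕ) (t : Fin N → Fin q)
    (T : (∀ k, ι (t k)) → K), T ≠ 0 → ∀ c : Place ℂ K →₀ ℤ,
    (∀ (P : Place ℂ K) (I : ∀ k, ι (t k)),
      Ge P (-c P) (∑ J : ∀ k, ι (t k), (∏ k, (F (t k)).B P (I k) (J k)) * T J)) →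
    ∑ k, μ (t k) ≤ ddeg c

/-- Package SLP: the slope inequality for multihomogeneous polynomials (from MIX; symmetric tensors
as in `Helper81.PP.sec`). -/
def S_SLP : Prop := ∀ {K : Type} [Field K] [Algebra ℂ K] [IsFF ℂ K] {q : ℕ} {ι : Fin q → Type}
    [∀ i, Fintype (ι i)] [∀ i, DecidableEq (ι i)] (F : ∀ i, Bn K (ι i)) (μ : Fin q → ℝ),
    (∀ i, Nonempty (ι i)) → (∀ i, SL (F i) (μ i)) → ∀ (e : Fin q → ℕ)
    (p : MvPolynomial (Σ i, ι i) K), (∀ α, coeff α p ≠ 0 → ∀ i, ∑ x, α ⟨i, x⟩ = e i) → p ≠ 0 →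
    ∀ c : Place ℂ K →₀ ℤ,
    (∀ P α, Ge P (-c P) (coeff α (aeval (fun x : Σ i, ι i =>
      ∑ y, MvPolynomial.C ((F x.1).B P y x.2) * X ⟨x.1, y⟩ :
        (Σ i, ι i) → MvPolynomial (Σ i, ι i) K) p))) → ∑ i, e i * μ i ≤ ddeg c

/-- Package WDG: slopes of exterior powers (from MIX). -/
def S_WDG : Prop := ∀ {K : Type} [Field K] [Algebra ℂ K] [IsFF ℂ K] {r : ℕ} (E : Bundle K r)
    (h : HNd E) (k : ℕ), 0 < k → k < r →
    SL (toBn (wedge k E)) (∑ c ∈ Finset.univ.filter (fun c : Fin r => (c : ℕ) < k), h.m c)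

/-- Package CHEB: convexity. -/
def S_CHEB : Prop := ∀ {r l : ℕ} (hl : 0 < l) (k : Fin l → ℕ), StrictMono k → (∀ j, 0 < k j) →
    (∀ j, k j < r) → ∀ m : Fin r → ℝ, Monotone m →
    ∑ j, ((nx k r j : ℝ) - pv k j) * ∑ c ∈ Finset.univ.filter (fun c : Fin r => (c : ℕ) < k j), m c ≤
      k ⟨l - 1, by omega⟩ * ∑ c, m c

/-- Package UP: restriction of the very ampleness to the flags. -/
def S_UP : Prop := ∀ {K : Type} [Field K] [Algebra ℂ K] [IsFF ℂ K] {r l : ℕ} (k : Fin l → ℕ),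
    (∀ j, 0 < k j) → (∀ j, k j < r) → ∀ (E : Bundle K r) (a : Fin l → ℕ) (N : Place ℂ K →₀ ℤ),
    VeryAmpleM (fun j => wedge (k j) E) a N → VeryAmpleF k E a N

/-- the variables of the slice: the coordinates of the affine chart -/
abbrev FrF {r l : ℕ} (k : Fin l → ℕ) (blk : Fin r → ℕ) : Type :=
  {x : Fin r × Fin r // blk x.1 = blk x.2 ∧ ∃ j, (x.2 : ℕ) < k j ∧ k j ≤ (x.1 : ℕ)}

/-- the general point of the slice -/
noncomputable def yx {F : Type} [Field F] {r l : ℕ} (k : Fin l → ℕ) (blk : Fin r → ℕ) :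
    Matrix (Fin r) (Fin r) (MvPolynomial (FrF k blk) F) :=
  Matrix.of fun a b => (if a = b then 1 else 0) +
    if h : blk a = blk b ∧ ∃ j, (b : ℕ) < k j ∧ k j ≤ (a : ℕ) then X ⟨(a, b), h⟩ else 0

/-- the variables of the block upper triangular matrices -/
abbrev VV {r : ℕ} (blk : Fin r → ℕ) : Type := Σ a : Fin r, {b : Fin r // blk a ≤ blk b}

/-- the rows of `W G`, `W` the general block upper triangular matrix -/
noncomputable def vrow {F : Type} [Field F] {r : ℕ} (blk : Fin r → ℕ) (G : Matrix (Fin r) (Fin r) F) :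
    Matrix (Fin r) (Fin r) (MvPolynomial (VV blk) F) :=
  Matrix.of fun a c => ∑ b : {b : Fin r // blk a ≤ blk b}, MvPolynomial.C (G b.1 c) * X ⟨a, b⟩

/-- the Plücker coordinates of the flag of the functions which vanish on the rows `≥ k j` of `W G`:
the determinants with the rows `e_S` and the rows `≥ k j` of `W G` -/
noncomputable def pls {F : Type} [Field F] {r l : ℕ} (k : Fin l → ℕ) (blk : Fin r → ℕ)
    (G : Matrix (Fin r) (Fin r) F) : Vr (fun j => Rk (k j) r) → MvPolynomial (VV blk) F :=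
  fun x => (Matrix.of fun (a c : Fin r) => if h : (a : ℕ) < k x.1 then
    (if c = sub (k x.1) r x.2 ⟨a, h⟩ then (1 : MvPolynomial (VV blk) F) else 0)
      else vrow blk G a c).det

/-- the restriction of sections to the slice in the frame `X` at `P` -/
noncomputable def sl {K : Type} [Field K] [Algebra ℂ K] {r l : ℕ} (k : Fin l → ℕ) (blk : Fin r → ℕ)
    (E : Bundle K r) (P : Place ℂ K) (Y : Matrix (Fin r) (Fin r) K) :
    MvPolynomial (Vr (fun j => Rk (k j) r)) K →ₐ[K] MvPolynomial (FrF k blk) K :=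
  aeval fun x => ∑ i, MvPolynomial.C (((wedge (k x.1) E).B P)⁻¹ x.2 i) *
    plu (fc (k x.1) (Y.map MvPolynomial.C * yx k blk)) i

/-- Package DEN: density of the slice. -/
def S_DEN : Prop := ∀ {r l : ℕ} (k : Fin l → ℕ), StrictMono k → (∀ j, 0 < k j) → (∀ j, k j < r) →
    ∀ (blk : Fin r → ℕ), Monotone blk → ∀ (Y : Matrix (Fin r) (Fin r) ℂ), Y.det ≠ 0 →
    ∀ (a : Fin l → ℕ) (s : MvPolynomial (Vr (fun j => Rk (k j) r)) ℂ), IsMh a s →
    aeval (fun x : Vr (fun j => Rk (k j) r) =>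
      plu (fc (k x.1) (Y.map MvPolynomial.C * yx k blk)) x.2) s =
        (0 : MvPolynomial (FrF k blk) ℂ) →
    aeval (pls k blk Y⁻¹) s = 0

/-- Package FSEC: sections on the flags which are compatible with the filtration (from SLP, DEN). -/
def S_FSEC : Prop := ∀ {K : Type} [Field K] [Algebra ℂ K] [IsFF ℂ K] {r l : ℕ} (k : Fin l → ℕ),
    StrictMono k → (∀ j, 0 < k j) → (∀ j, k j < r) → ∀ (E : Bundle K r) (h : HNd E)
    (a : Fin l → ℕ) (N : Place ℂ K →₀ ℤ) (s : MvPolynomial (Vr (fun j => Rk (k j) r)) K),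
    IsSecM (fun j => wedge (k j) E) a N s → ∀ (P : Place ℂ K) (Y U : Matrix (Fin r) (Fin r) K),
    (∀ i j, Ge P 0 (Y i j)) → (∀ i j, Ge P 0 (U i j)) → Y * U = 1 →
    E.B P * h.G⁻¹ = Y * h.C P → sl k h.blk E P Y s ≠ 0 →
    (∀ α, Ge P (1 - N P) (coeff α (sl k h.blk E P Y s))) →
    1 ≤ ∑ j, a j * (∑ c ∈ Finset.univ.filter (fun c : Fin r => (c : ℕ) < k j), h.m c) + ddeg N

/-- `v0` does not vanish at the origin, and the `v k` have the `1`-jets of the coordinates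
(`none`: the uniformizer `t`, `some x`: the coordinate `x`) -/
def JETG {K : Type} [Field K] [Algebra ℂ K] {I : Type} [DecidableEq I] (P : Place ℂ K) (t : K)
    (v0 : MvPolynomial I K) (v : Option I → MvPolynomial I K) : Prop :=
  Ge P 1 (coeff 0 v0 - 1) ∧
    (Ge P 2 (coeff 0 (v none) - t) ∧ ∀ x : I, Ge P 1 (coeff (Finsupp.single x 1) (v none))) ∧
    ∀ y : I, Ge P 2 (coeff 0 (v (some y))) ∧
      ∀ x : I, Ge P 1 (coeff (Finsupp.single x 1) (v (some y)) - if x = y then 1 else 0)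

/-- Package GROWG: growth in general variables (as `Helper43.PP.grow`). -/
def S_GROWG : Prop := ∀ {K : Type} [Field K] [Algebra ℂ K] [IsFF ℂ K] {I : Type} [Fintype I]
    [DecidableEq I] (P : Place ℂ K) (t : K), P.ord t = 1 → ∀ (v0 : MvPolynomial I K)
    (v : Option I → MvPolynomial I K), (∀ α, Ge P 0 (coeff α v0)) →
    (∀ k α, Ge P 0 (coeff α (v k))) → JETG P t v0 v →
    ∃ M : ℕ, 0 < M ∧ ∃ c : (Fin M → Option (Option I)) → ℂ,
      (∑ w, MvPolynomial.C (algebraMap ℂ K (c w)) * ∏ i, (w i).elim v0 v) ≠ 0 ∧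
      ∀ α, Ge P 1 (coeff α (∑ w, MvPolynomial.C (algebraMap ℂ K (c w)) * ∏ i, (w i).elim v0 v))

/-- Package FJETS: the `1`-jets of the sections of a very ample line bundle. -/
def S_FJETS : Prop := ∀ {K : Type} [Field K] [Algebra ℂ K] [IsFF ℂ K] {r l : ℕ} (k : Fin l → ℕ),
    StrictMono k → (∀ j, 0 < k j) → (∀ j, k j < r) → ∀ (blk : Fin r → ℕ), Monotone blk →
    ∀ (E : Bundle K r) (P : Place ℂ K) (t : K), P.ord t = 1 →
    ∀ (Y U : Matrix (Fin r) (Fin r) K), (∀ i j, Ge P 0 (Y i j)) → (∀ i j, Ge P 0 (U i j)) →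
    Y * U = 1 → ∀ (a : Fin l → ℕ) (N : Place ℂ K →₀ ℤ), VeryAmpleF k E a N →
    ∃ (s0 : MvPolynomial (Vr (fun j => Rk (k j) r)) K)
      (s : Option (FrF k blk) → MvPolynomial (Vr (fun j => Rk (k j) r)) K),
      IsSecM (fun j => wedge (k j) E) a N s0 ∧ (∀ x, IsSecM (fun j => wedge (k j) E) a N (s x)) ∧
      JETG P t (MvPolynomial.C (t ^ N P) * sl k blk E P Y s0)
        (fun x => MvPolynomial.C (t ^ N P) * sl k blk E P Y (s x))

/-- Package FDEG: the degrees are positive. -/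
def S_FDEG : Prop := ∀ {K : Type} [Field K] [Algebra ℂ K] [IsFF ℂ K] {r l : ℕ} (k : Fin l → ℕ),
    StrictMono k → (∀ j, 0 < k j) → (∀ j, k j < r) → ∀ (E : Bundle K r)
    (a : Fin l → ℕ) (N : Place ℂ K →₀ ℤ), VeryAmpleF k E a N → ∀ j, 0 < a j

/-- Package FPOS: ample line bundles are positive (from FSEC, GROWG, FJETS, FDEG). -/
def S_FPOS : Prop := ∀ {K : Type} [Field K] [Algebra ℂ K] [IsFF ℂ K] {r l : ℕ} (k : Fin l → ℕ),
    StrictMono k → (∀ j, 0 < k j) → (∀ j, k j < r) → 0 < r → ∀ (E : Bundle K r) (h : HNd E)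
    (a : Fin l → ℕ) (b : Place ℂ K →₀ ℤ), IsAmpleF k E a b →
    (∀ j, 0 < a j) ∧
      0 < ∑ j, a j * (∑ c ∈ Finset.univ.filter (fun c : Fin r => (c : ℕ) < k j), h.m c) + ddeg b

end Pool.Agent.Helper9.FL
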