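import Pool.Agent.Helper9.FL.Stm

/-!
Project FL (helper9): the inequality of Chebyshev.
-/

set_option autoImplicit false

namespace Pool.Agent.Helper9.FL

theorem pv_le {l : ℕ} {k : Fin l → ℕ} (hk : StrictMono k) (j : Fin l) : pv k j ≤ k j := by
  rw [pv]
  split_ifs with h
  · exact Nat.zero_le _
  · refine (hk ?_).le
    rw [Fin.lt_def]
    show (j : ℕ) - 1 < j
    omega

theorem le_nx {l r : ℕ} {k : Fin l → ℕ} (hk : StrictMono k) (hr : ∀ j, k j < r) (j : Fin l) :
    k j ≤ nx k r j := by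
  rw [nx]
  split_ifs with h
  · refine (hk ?_).le
    rw [Fin.lt_def]
    show (j : ℕ) < j + 1
    omega
  · exact (hr j).le

/-- the sequence `0, k 0, k 1, ..., k (l - 1), r` -/
noncomputable def seq {l : ℕ} (k : Fin l → ℕ) (r : ℕ) (i : ℕ) : ℝ :=
  if i = 0 then 0 else if h : i - 1 < l then k ⟨i - 1, h⟩ else r

theorem seq_k {l : ℕ} (k : Fin l → ℕ) (r : ℕ) (j : Fin l) : seq k r (j + 1) = k j := by
  rw [seq, if_neg (by omega), dif_pos (by have := j.2; omega)]
  congr 2

theorem seq_pv {l : ℕ} (k : Fin l → ℕ) (r : ℕ) (j : Fin l) : seq k r j = pv k j := by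
  rw [seq, pv]
  by_cases h : (j : ℕ) = 0
  · rw [if_pos h, if_pos h, Nat.cast_zero]
  · rw [if_neg h, if_neg h, dif_pos (by have := j.2; omega)]

theorem seq_nx {l : ℕ} (k : Fin l → ℕ) (r : ℕ) (j : Fin l) : seq k r (j + 1 + 1) = nx k r j := by
  rw [seq, nx, if_neg (by omega)]
  by_cases h : (j : ℕ) + 1 < l
  · rw [dif_pos h, dif_pos (by omega)]
    congr 2
  · rw [dif_neg h, dif_neg (by omega)]

theorem tele {l : ℕ} (hl : 0 < l) (k : Fin l → ℕ) (r : ℕ) :
    ∑ j, ((nx k r j : ℝ) - pv k j) * k j = r * k ⟨l - 1, by omega⟩ := by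
  have h1 : ∑ j : Fin l, ((nx k r j : ℝ) - pv k j) * k j =
      ∑ j : Fin l, (seq k r (j + 1 + 1) * seq k r (j + 1) - seq k r (j + 1) * seq k r j) := by
    refine Finset.sum_congr rfl fun j _ => ?_
    rw [seq_nx, seq_pv, seq_k]
    ring
  rw [h1, Fin.sum_univ_eq_sum_range (fun i => seq k r (i + 1 + 1) * seq k r (i + 1) -
    seq k r (i + 1) * seq k r i) l, Finset.sum_range_sub (fun i => seq k r (i + 1) * seq k r i)]
  have h2 : seq k r (l + 1) = r := by
    rw [seq, if_neg (by omega), dif_neg (by omega)]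
  have h3 : seq k r l = k ⟨l - 1, by omega⟩ := by
    rw [seq, if_neg (by omega), dif_pos (by omega)]
  have h4 : seq k r 0 = 0 := by rw [seq, if_pos rfl]
  rw [h2, h3, h4, mul_zero, sub_zero]

theorem cheb : S_CHEB := by
  intro r l hl k hk hk0 hkr m hm
  have hr : 0 < r := (hk0 ⟨0, hl⟩).trans (hkr ⟨0, hl⟩)
  set w : Fin r → ℝ := fun c => ∑ j, if (c : ℕ) < k j then ((nx k r j : ℝ) - pv k j) else 0
    with hw
  have hg : ∀ j, (0 : ℝ) ≤ (nx k r j : ℝ) - pv k j := fun j => by
    have h1 : (pv k j : ℝ) ≤ nx k r j := by exact_mod_cast (pv_le hk j).trans (le_nx hk hkr j)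
    linarith
  have hanti : Antitone w := by
    intro c c' hcc
    refine Finset.sum_le_sum fun j _ => ?_
    have h1 : (c : ℕ) ≤ c' := hcc
    split_ifs with h2 h3 h3
    · exact le_rfl
    · omega
    · exact hg j
    · exact le_rfl
  have hLHS : ∑ j, ((nx k r j : ℝ) - pv k j) *
      ∑ c ∈ Finset.univ.filter (fun c : Fin r => (c : ℕ) < k j), m c = ∑ c, m c * w c := by
    have h1 : ∀ j, ((nx k r j : ℝ) - pv k j) *
        ∑ c ∈ Finset.univ.filter (fun c : Fin r => (c : ℕ) < k j), m c =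
        ∑ c, m c * if (c : ℕ) < k j then ((nx k r j : ℝ) - pv k j) else 0 := by
      intro j
      rw [Finset.sum_filter, Finset.mul_sum]
      refine Finset.sum_congr rfl fun c _ => ?_
      split_ifs <;> ring
    rw [Finset.sum_congr rfl fun j _ => h1 j, Finset.sum_comm]
    refine Finset.sum_congr rfl fun c _ => ?_
    rw [hw, Finset.mul_sum]
  have hsum : ∑ c, w c = r * k ⟨l - 1, by omega⟩ := by
    rw [← tele hl k r, hw, Finset.sum_comm]
    refine Finset.sum_congr rfl fun j _ => ?_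
    rw [← Finset.sum_filter, Finset.sum_const, nsmul_eq_mul, mul_comm]
    congr 2
    have h1 : (Finset.univ.filter fun c : Fin r => (c : ℕ) < k j).card = k j := by
      rw [Fin.card_filter_val_lt]
      exact min_eq_right (hkr j).le
    exact h1
  have hch : (Fintype.card (Fin r) : ℝ) * ∑ c, m c * w c ≤ (∑ c, m c) * ∑ c, w c :=
    Antivary.card_mul_sum_le_sum_mul_sum (hm.antivary hanti)
  rw [Fintype.card_fin, hsum] at hch
  have hr' : (0 : ℝ) < r := by exact_mod_cast hr
  rw [hLHS]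
  refine le_of_mul_le_mul_left (hch.trans (le_of_eq ?_)) hr'
  ring

end Pool.Agent.Helper9.FL
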