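import Pool.Agent.Helper9.FL.Defs

/-!
Bundles of partial flags over curves: very ample and ample line bundles (the definitions of
`Pool.Agent.Helper9.FL.Defs` in a shorter form).
-/

set_option autoImplicit false

namespace Pool.Agent.Helper9.FL

open FF Module MvPolynomial Pool.Agent.Helper9.FJ Pool.Agent.Helper9.PP Pool.Agent.Helper9.GR

variable {K : Type} [Field K] [Algebra ℂ K] {r l : ℕ}

/-- The matrices `Ξ` and `Θ`, `Ξ` invertible, satisfy: the first `k` columns of `Θ` are linear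
combinations of the first `k` columns of `Ξ`. -/
def ColsIn (k : ℕ) (Ξ Θ : Matrix (Fin r) (Fin r) ℂ) : Prop :=
  ∃ g : Matrix (Fin k) (Fin k) ℂ, fc k Θ = fc k Ξ * g

/-- The point of `X = Fl(k, E)` above `P` which is given by the invertible complex matrix `Ξ`, see
`plF`. -/
noncomputable def ptF (k : Fin l → ℕ) (E : Bundle K r) (P : Place ℂ K)
    (Ξ : Matrix (Fin r) (Fin r) ℂ) : Vr (fun j => Rk (k j) r) → K :=
  plF k E P (Ξ.map (algebraMap ℂ K))

/-- The vertical tangent vector at `ptF k E P Ξ` which is given by `H`: the coefficients of `ε` in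
the minors of the first `k j` columns of `Ξ + ε H`. -/
noncomputable def vtF (k : Fin l → ℕ) (E : Bundle K r) (P : Place ℂ K)
    (Ξ H : Matrix (Fin r) (Fin r) ℂ) : Vr (fun j => Rk (k j) r) → K :=
  fun x => pt (wedge (k x.1) E) P (dplu (fc (k x.1) Ξ) (fc (k x.1) H)) x.2

/-- `s` is a section of the line bundle `O(a) ⊗ π^* O(N)` on `X = Fl(k, E)`, the restriction of a
section of this line bundle on the fibre product of the `P(Λ^(k j) E)`. -/
def IsSecF (k : Fin l → ℕ) (E : Bundle K r) (a : Fin l → ℕ) (N : Place ℂ K →₀ ℤ)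
    (s : MvPolynomial (Vr (fun j => Rk (k j) r)) K) : Prop :=
  IsSecM (fun j => wedge (k j) E) a N s

/-- The sections of the line bundle `O(a) ⊗ π^* O(N)` on `X` have no common zero. -/
def BaseFree (k : Fin l → ℕ) (E : Bundle K r) (a : Fin l → ℕ) (N : Place ℂ K →₀ ℤ) : Prop :=
  ∀ (P : Place ℂ K) (Ξ : Matrix (Fin r) (Fin r) ℂ), Ξ.det ≠ 0 →
    ∃ s, IsSecF k E a N s ∧ ¬ Ge P (1 - N P) (eval (ptF k E P Ξ) s)

/-- The sections separate points. -/
def SepPoints (k : Fin l → ℕ) (E : Bundle K r) (a : Fin l → ℕ) (N : Place ℂ K →₀ ℤ) : Prop :=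
  ∀ (P Q : Place ℂ K) (Ξ Θ : Matrix (Fin r) (Fin r) ℂ), Ξ.det ≠ 0 → Θ.det ≠ 0 →
    (P = Q → ∃ j, ¬ ColsIn (k j) Ξ Θ) →
    ∃ s, IsSecF k E a N s ∧ Ge P (1 - N P) (eval (ptF k E P Ξ) s) ∧
      ¬ Ge Q (1 - N Q) (eval (ptF k E Q Θ) s)

/-- The sections separate the tangent vectors which are not vertical: for a section `s` which
vanishes at `(P, Ξ)`, the derivative in the direction of the tangent vector `(1, H)` at `(P, Ξ)` is
the coefficient of `t` in the value of `t ^ N(P) s` at `Ξ + t H`. -/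
def SepTransversal (k : Fin l → ℕ) (E : Bundle K r) (a : Fin l → ℕ) (N : Place ℂ K →₀ ℤ) :
    Prop :=
  ∀ (P : Place ℂ K) (t : K) (Ξ H : Matrix (Fin r) (Fin r) ℂ), P.ord t = 1 → Ξ.det ≠ 0 →
    ∃ s, IsSecF k E a N s ∧ Ge P (1 - N P) (eval (ptF k E P Ξ) s) ∧
      ¬ Ge P (2 - N P) (eval (plF k E P (Ξ.map (algebraMap ℂ K) + t • H.map (algebraMap ℂ K))) s)

/-- The sections separate the vertical tangent vectors: for a section `s` which vanishes at
`(P, Ξ)`, the derivative in the direction of the vertical tangent vector `(0, H)`, where for some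
`j` the first `k j` columns of `H` are not in the span of those of `Ξ`, is the value at `P` of the
derivative of `t ^ N(P) s` at `ptF k E P Ξ` in the direction `vtF k E P Ξ H`. -/
def SepVertical (k : Fin l → ℕ) (E : Bundle K r) (a : Fin l → ℕ) (N : Place ℂ K →₀ ℤ) : Prop :=
  ∀ (P : Place ℂ K) (Ξ H : Matrix (Fin r) (Fin r) ℂ), Ξ.det ≠ 0 → (∃ j, ¬ ColsIn (k j) Ξ H) →
    ∃ s, IsSecF k E a N s ∧ Ge P (1 - N P) (eval (ptF k E P Ξ) s) ∧
      ¬ Ge P (1 - N P) (∑ x, vtF k E P Ξ H x * eval (ptF k E P Ξ) (pderiv x s))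

/-- The line bundle `O(a) ⊗ π^* O(N)` on `X = Fl(k, E)` is very ample: its sections have no common
zero, and they separate points and tangent vectors. -/
def VeryAmple (k : Fin l → ℕ) (E : Bundle K r) (a : Fin l → ℕ) (N : Place ℂ K →₀ ℤ) : Prop :=
  BaseFree k E a N ∧ SepPoints k E a N ∧ SepTransversal k E a N ∧ SepVertical k E a N

/-- The line bundle `O(a) ⊗ π^* O(b)` on `X = Fl(k, E)` is ample. -/
def IsAmple (k : Fin l → ℕ) (E : Bundle K r) (a : Fin l → ℕ) (b : Place ℂ K →₀ ℤ) : Prop :=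
  ∃ M : ℕ, 0 < M ∧ VeryAmple k E (M • a) (M • b)

theorem veryAmple_iff (k : Fin l → ℕ) (E : Bundle K r) (a : Fin l → ℕ) (N : Place ℂ K →₀ ℤ) :
    VeryAmple k E a N ↔ VeryAmpleF k E a N := Iff.rfl

theorem isAmple_iff (k : Fin l → ℕ) (E : Bundle K r) (a : Fin l → ℕ) (b : Place ℂ K →₀ ℤ) :
    IsAmple k E a b ↔ IsAmpleF k E a b := Iff.rfl

end Pool.Agent.Helper9.FL
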