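import Pool.Agent.Helper9.FL.Stm
import Pool.Agent.Helper9.PP.Wrd

/-!
Project FL (helper9): package MIX.
-/

set_option autoImplicit false
set_option linter.unusedSectionVars false

namespace Pool.Agent.Helper9.FL

open FF Module Pool.Agent.Helper9.FJ Pool.Agent.Helper9.PP
open scoped Kronecker

/-- products of several bundles -/
theorem wrd' {K : Type} [Field K] [Algebra ℂ K] [IsFF ℂ K] {q : ℕ} {ι : Fin q → Type}
    [∀ i, Fintype (ι i)] [∀ i, DecidableEq (ι i)] (F : ∀ i, Bn K (ι i)) (μ : Fin q → ℝ)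
    (hι : ∀ i, Nonempty (ι i)) (hF : ∀ i, SL (F i) (μ i)) (N : ℕ) : ∀ t : Fin N → Fin q,
    ∃ H : Bn K (∀ k, ι (t k)),
      (∀ P I J, H.B P I J = ∏ k, (F (t k)).B P (I k) (J k)) ∧ SL H (∑ k, μ (t k)) := by
  classical
  induction N with
  | zero =>
    intro t
    obtain ⟨H, hH, hH'⟩ := wrd (K := K) (l := 0) (r := fun j => j.elim0) (fun j => j.elim0)
      (fun j => j.elim0) (fun j => j.elim0) (fun j => j.elim0) 0 (fun k => k.elim0)
    let e : (∀ k : Fin 0, Fin ((fun j : Fin 0 => j.elim0) ((fun k : Fin 0 => k.elim0) k))) ≃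
        (∀ k : Fin 0, ι (t k)) :=
      ⟨fun _ k => k.elim0, fun _ k => k.elim0, fun _ => funext fun k => k.elim0,
        fun _ => funext fun k => k.elim0⟩
    refine ⟨H.re e, fun P I J => ?_, ?_⟩
    · change H.B P _ _ = _
      rw [hH]
      simp
    · have := hH'.re e
      simpa using this
  | succ N ih =>
    intro t
    obtain ⟨G, hG, hG'⟩ := ih fun k => t k.succ
    have h1 : Nonempty (ι (t 0)) := hι _
    have h2 : Nonempty (∀ k : Fin N, ι (t k.succ)) := ⟨fun k => (hι _).some⟩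
    obtain ⟨H, hH, hH'⟩ := ten (F (t 0)) G (μ (t 0)) _ h1 h2 (hF _) hG'
    let e : (ι (t 0) × ∀ k : Fin N, ι (t k.succ)) ≃ (∀ k : Fin (N + 1), ι (t k)) :=
      Fin.consEquiv fun k => ι (t k)
    refine ⟨H.re e, fun P I J => ?_, ?_⟩
    · change H.B P (e.symm I) (e.symm J) = _
      rw [hH, Matrix.kroneckerMap_apply, hG, Fin.prod_univ_succ]
      rfl
    · rw [Fin.sum_univ_succ]
      exact hH'.re e

/-- **Package MIX.** -/
theorem mix : S_MIX := by
  classical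
  intro K _ _ _ q ι _ _ F μ hι hF N t T hT c hc
  obtain ⟨H, hH, hH'⟩ := wrd' F μ hι hF N t
  obtain ⟨Λ, hΛ⟩ : ∃ Λ : Matrix (∀ k, ι (t k)) (Fin 1) K, ∀ J x, Λ J x = T J :=
    ⟨fun J _ => T J, fun _ _ => rfl⟩
  obtain ⟨J0, hJ0⟩ := Function.ne_iff.1 hT
  have hJ0' : T J0 ≠ 0 := hJ0
  obtain ⟨Y, hY⟩ : ∃ Y : Matrix (Fin 1) (∀ k, ι (t k)) K,
      ∀ x J, Y x J = if J = J0 then (T J0)⁻¹ else 0 := ⟨fun _ J => _, fun _ _ => rfl⟩
  obtain ⟨d, hd⟩ := exists_qt H (Λ := Λ) (Y := Y) (by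
    ext x y
    rw [Matrix.mul_apply, Finset.sum_eq_single J0, hY, if_pos rfl, hΛ, inv_mul_cancel₀ hJ0',
      Subsingleton.elim x y, Matrix.one_apply_eq]
    · intro J _ hJ
      rw [hY, if_neg hJ, zero_mul]
    · intro h
      exact absurd (Finset.mem_univ _) h)
  have h1 := hH' 1 Λ d Nat.one_pos hd
  rw [Nat.cast_one, mul_one] at h1
  refine h1.trans ?_
  have h2 : d ≤ c := by
    intro P
    obtain ⟨S, hS, hSd⟩ := (hd P).2
    have h3 : ((H.B P * Λ).submatrix S id).det =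
        ∑ J : ∀ k, ι (t k), (∏ k, (F (t k)).B P (S 0 k) (J k)) * T J := by
      rw [Matrix.det_unique, Matrix.submatrix_apply, Matrix.mul_apply]
      refine Finset.sum_congr rfl fun J _ => ?_
      rw [hH, hΛ]
      rfl
    have h4 := hc P (S 0)
    rw [← h3, ge_iff hS, hSd] at h4
    linarith
  exact_mod_cast ddeg_mono h2

end Pool.Agent.Helper9.FL
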