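import Pool.Agent.Helper9.FL.Num
import Pool.Agent.Helper9.FL.Mix

/-!
Project FL (helper9): the main theorem from the packages.
-/

set_option autoImplicit false

namespace Pool.Agent.Helper9.FL

open FF Module MvPolynomial Pool.Agent.Helper9.FJ Pool.Agent.Helper9.PP Pool.Agent.Helper9.GR

theorem mainThm (va : S_VA) (wdg : S_WDG) (up : S_UP) (hn : S_HN) (fpos : S_FPOS) {K : Type}
    [Field K] [Algebra ℂ K] [IsFF ℂ K] {r l : ℕ} (hl : 0 < l) (k : Fin l → ℕ) (hk : StrictMono k)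
    (hk0 : ∀ j, 0 < k j) (hkr : ∀ j, k j < r) (E : Bundle K r) {W : Place ℂ K →₀ ℤ}
    (hW : IsCanonical W) {m : ℕ} (hm : ∀ j, nx k r j - pv k j + 2 ≤ m) (a : Fin m → Fin l → ℕ)
    (b : Fin m → (Place ℂ K →₀ ℤ)) (hA : ∀ i, IsAmpleF k E (a i) (b i)) :
    ∃ c : Fin l → ℕ, (∀ j, c j + (nx k r j - pv k j) = ∑ i, a i j) ∧
      VeryAmpleF k E c (W + k ⟨l - 1, by omega⟩ • E.detDiv + ∑ i, b i) := by
  have hr : 0 < r := (hk0 ⟨0, hl⟩).trans (hkr ⟨0, hl⟩)
  obtain ⟨h, -⟩ := hn E hr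
  have hP := fun i => fpos k hk hk0 hkr hr E h (a i) (b i) (hA i)
  have hgap : ∀ j, pv k j < nx k r j := by
    intro j
    rcases Nat.eq_zero_or_pos (j : ℕ) with h0 | h0
    · rw [pv, if_pos h0]
      exact (hk0 j).trans_le (le_nx hk hkr j)
    · refine lt_of_lt_of_le ?_ (le_nx hk hkr j)
      rw [pv, if_neg h0.ne']
      refine hk ?_
      rw [Fin.lt_def]
      show (j : ℕ) - 1 < j
      omega
  have h1 := hm ⟨0, hl⟩
  have h2 := hgap ⟨0, hl⟩
  obtain ⟨n, rfl⟩ : ∃ n, m = n + 2 := ⟨m - 2, by omega⟩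
  have hsum : ∀ j, nx k r j - pv k j ≤ ∑ i, a i j := by
    intro j
    have h1 : ∑ i : Fin (n + 2), 1 ≤ ∑ i, a i j := Finset.sum_le_sum fun i _ => (hP i).1 j
    rw [Finset.sum_const, Finset.card_univ, Fintype.card_fin, smul_eq_mul, mul_one] at h1
    have := hm j
    omega
  have hc : ∀ j, (∑ i, a i j - (nx k r j - pv k j)) + (nx k r j - pv k j) = ∑ i, a i j :=
    fun j => Nat.sub_add_cancel (hsum j)
  refine ⟨fun j => ∑ i, a i j - (nx k r j - pv k j), hc, mainF va wdg up hl hk hk0 hkr E h hW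
    (by omega) (fun j => ?_) a b hP _ (fun j => ?_)⟩
  · have h3 := hm j
    have h4 := hgap j
    omega
  · have h3 := hc j
    have h4 := hgap j
    show (∑ i, a i j - (nx k r j - pv k j)) + nx k r j = ∑ i, a i j + pv k j
    omega

end Pool.Agent.Helper9.FL
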