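import Pool.Agent.Helper9.PP.Num
import Pool.Agent.Helper9.FL.Cheb

/-!
Project FL (helper9): the numerical part.
-/

set_option autoImplicit false

namespace Pool.Agent.Helper9.FL

open FF Module MvPolynomial Pool.Agent.Helper9.FJ Pool.Agent.Helper9.PP Pool.Agent.Helper9.GR

variable {K : Type} [Field K] [Algebra ℂ K] [IsFF ℂ K] {r l : ℕ}

theorem Rk_pos {k r : ℕ} (h : k ≤ r) : 0 < Rk k r := by
  refine Fintype.card_pos_iff.2 ⟨Fin.castLEOrderEmb h⟩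

/-- the slopes of the exterior powers -/
noncomputable def nu {E : Bundle K r} (h : HNd E) (k : Fin l → ℕ) (j : Fin l) : ℝ :=
  ∑ c ∈ Finset.univ.filter (fun c : Fin r => (c : ℕ) < k j), h.m c

theorem mainF (va : S_VA) (wdg : S_WDG) (up : S_UP) (hl : 0 < l) {k : Fin l → ℕ}
    (hk : StrictMono k) (hk0 : ∀ j, 0 < k j) (hkr : ∀ j, k j < r) (E : Bundle K r) (h : HNd E)
    {W : Place ℂ K →₀ ℤ} (hW : IsCanonical W) {n : ℕ} (hn : 0 < n)
    (hm : ∀ j, nx k r j ≤ n + pv k j) (a : Fin (n + 2) → Fin l → ℕ)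
    (b : Fin (n + 2) → (Place ℂ K →₀ ℤ))
    (hA : ∀ i, (∀ j, 0 < a i j) ∧ 0 < ∑ j, a i j * nu h k j + ddeg (b i)) (c : Fin l → ℕ)
    (hc : ∀ j, c j + nx k r j = ∑ i, a i j + pv k j) :
    VeryAmpleF k E c (W + k ⟨l - 1, by omega⟩ • E.detDiv + ∑ i, b i) := by
  classical
  refine up k hk0 hkr E c _ ?_
  have hgap : ∀ j, pv k j ≤ nx k r j := fun j => (pv_le hk j).trans (le_nx hk hkr j)
  have hsum : ∀ j, nx k r j ≤ ∑ i : Fin n, a i.succ.succ j + pv k j := by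
    intro j
    have h1 : ∑ i : Fin n, 1 ≤ ∑ i : Fin n, a i.succ.succ j :=
      Finset.sum_le_sum fun i _ => (hA _).1 j
    rw [Finset.sum_const, Finset.card_univ, Fintype.card_fin, smul_eq_mul, mul_one] at h1
    have := hm j
    omega
  obtain ⟨a3, ha3⟩ : ∃ a3 : Fin l → ℕ, ∀ j,
      a3 j + nx k r j = ∑ i : Fin n, a i.succ.succ j + pv k j :=
    ⟨fun j => ∑ i : Fin n, a i.succ.succ j + pv k j - nx k r j,
      fun j => Nat.sub_add_cancel (hsum j)⟩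
  have hsplit : ∀ {M : Type} [AddCommMonoid M] (f : Fin (n + 2) → M),
      ∑ i, f i = f 0 + (f (Fin.succ 0) + ∑ i : Fin n, f i.succ.succ) := by
    intro M _ f
    rw [Fin.sum_univ_succ, Fin.sum_univ_succ]
  have hc' : c = a 0 + a (Fin.succ 0) + a3 := by
    funext j
    have h1 := hc j
    rw [hsplit] at h1
    have h2 := ha3 j
    rw [Pi.add_apply, Pi.add_apply]
    omega
  obtain ⟨b3, hb3⟩ : ∃ b3, b3 = W + k ⟨l - 1, by omega⟩ • E.detDiv +
    ∑ i : Fin n, b i.succ.succ := ⟨_, rfl⟩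
  have hb : W + k ⟨l - 1, by omega⟩ • E.detDiv + ∑ i, b i = b 0 + b (Fin.succ 0) + b3 := by
    rw [hsplit, hb3]
    abel
  rw [hc', hb]
  refine va hW (fun j => wedge (k j) E) (nu h k) (fun j => Rk_pos (hkr j).le)
    (fun j => wdg E h (k j) (hk0 j) (hkr j)) (a 0) (a (Fin.succ 0)) a3 (b 0) (b (Fin.succ 0)) b3
    (hA _).1 (hA _).1 (hA _).2 (hA _).2 ?_
  have h1 : (ddeg b3 : ℝ) = ddeg W + k ⟨l - 1, by omega⟩ * (ddeg E.detDiv : ℝ) +
      ∑ i : Fin n, (ddeg (b i.succ.succ) : ℝ) := by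
    rw [hb3, ddeg_add, ddeg_add, ddeg_sum, ddeg_nsmul]
    push_cast
    rfl
  have h2 : ∑ j, (a3 j : ℝ) * nu h k j = ∑ i : Fin n, ∑ j, (a i.succ.succ j : ℝ) * nu h k j -
      ∑ j, ((nx k r j : ℝ) - pv k j) * nu h k j := by
    rw [Finset.sum_comm, ← Finset.sum_sub_distrib]
    refine Finset.sum_congr rfl fun j _ => ?_
    have h3 : (a3 j : ℝ) + nx k r j = ∑ i : Fin n, (a i.succ.succ j : ℝ) + pv k j := by
      exact_mod_cast ha3 j
    have h4 : ∑ i : Fin n, (a i.succ.succ j : ℝ) = a3 j + nx k r j - pv k j := by linarith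
    rw [← Finset.sum_mul, h4]
    ring
  have h3 : ∑ j, ((nx k r j : ℝ) - pv k j) * nu h k j ≤
      k ⟨l - 1, by omega⟩ * (ddeg E.detDiv : ℝ) := by
    rw [← h.hdeg]
    exact cheb hl k hk hk0 hkr h.m h.hm
  have h4 : 0 < ∑ i : Fin n, (∑ j, (a i.succ.succ j : ℝ) * nu h k j + ddeg (b i.succ.succ)) :=
    Finset.sum_pos (fun i _ => (hA _).2) ⟨⟨0, hn⟩, Finset.mem_univ _⟩
  rw [Finset.sum_add_distrib] at h4
  rw [h1, h2]
  linarith

end Pool.Agent.Helper9.FL
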